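import Mathlib

/-!
# Separator exponent versus expansion exponent

For every `k ≥ 2` the subgraphs of subdivisions of (looped and doubled) complete graphs on `q ^ (k-1)`
vertices, each edge being replaced by a path with `q` inner vertices, form a monotone class with
balanced separators of order `O(n ^ (1 - 1/k))`, whose expansion at depth `q` is at least
`q ^ (k-1) - 1`.
-/

set_option autoImplicit false

namespace Pool.Agent.Results.MP_2f3b43_co.ExponentAtLeastOne

open SimpleGraph Finset Filter Asymptotics Topology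

/-- finite simple graphs. -/
structure FG where
  V : Type
  fin : Finite V
  G : SimpleGraph V

/-- classes closed under taking subgraphs (and isomorphism). -/
def Monotone (C : FG → Prop) : Prop :=
  ∀ G H : FG, C G → (∃ f : H.V → G.V, Function.Injective f ∧
    ∀ a b, H.G.Adj a b → G.G.Adj (f a) (f b)) → C H

/-- the component of `v` in `G - S`. -/
def component {V : Type} (G : SimpleGraph V) (S : Set V) (v : V) : Set V :=
  {w | ∃ p : G.Walk v w, ∀ x ∈ p.support, x ∉ S}

/-- `S` is a balanced separator: every component of `G - S` has at most `2n/3` vertices. -/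
def BalSep {V : Type} (G : SimpleGraph V) (S : Set V) : Prop :=
  ∀ v, v ∉ S → 3 * (component G S v).ncard ≤ 2 * Nat.card V

/-- the `n`-vertex graphs of `C` have balanced separators of order `O(n ^ (1 - δ))`. -/
def HasSeparators (C : FG → Prop) (δ : ℝ) : Prop :=
  ∃ K : ℝ, ∀ G : FG, C G → ∃ S : Set G.V, BalSep G.G S ∧
    (S.ncard : ℝ) ≤ K * (Nat.card G.V : ℝ) ^ (1 - δ)

/-- `H` is a depth `r` minor of `G`. -/
def IsDepthMinor (r : ℕ) {W V : Type} (H : SimpleGraph W) (G : SimpleGraph V) : Prop :=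
  ∃ B : W → Set V,
    (∀ i j, i ≠ j → Disjoint (B i) (B j)) ∧
    (∀ i, ∃ x ∈ B i, ∀ y ∈ B i, ∃ p : G.Walk x y, p.length ≤ r ∧ ∀ w ∈ p.support, w ∈ B i) ∧
    (∀ i j, H.Adj i j → ∃ a ∈ B i, ∃ b ∈ B j, G.Adj a b)

/-- the expansion of `C` is bounded by `f`: every depth `r` minor of a graph of `C` has average
degree at most `f r`. -/
def ExpansionLE (C : FG → Prop) (f : ℕ → ℝ) : Prop :=
  ∀ (r : ℕ) (G H : FG), C G → IsDepthMinor r H.G G.G →
    2 * (H.G.edgeSet.ncard : ℝ) ≤ f r * (Nat.card H.V : ℝ)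

/-- the set `A` of the problem. -/
def A : Set ℝ :=
  {c | 0 < c ∧ ∀ δ : ℝ, 0 < δ → δ ≤ 1 → ∀ C : FG → Prop, Monotone C → HasSeparators C δ →
    ∃ f : ℕ → ℝ, ExpansionLE C f ∧ f =O[atTop] (fun r : ℕ => (r : ℝ) ^ (c / δ))}

/-- vertices of the subdivided graph: the branch vertices and, for each ordered pair of branch
vertices, a path with `q` inner vertices. -/
abbrev Vtx (m q : ℕ) : Type := Fin m ⊕ (Fin m × Fin m × Fin q)

/-- adjacency in one direction. -/
def Rel (m q : ℕ) : Vtx m q → Vtx m q → Prop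
  | Sum.inl _, Sum.inl _ => False
  | Sum.inl i, Sum.inr x => i = x.1 ∧ x.2.2.val = 0
  | Sum.inr x, Sum.inl j => x.2.1 = j ∧ x.2.2.val + 1 = q
  | Sum.inr x, Sum.inr y => x.1 = y.1 ∧ x.2.1 = y.2.1 ∧ x.2.2.val + 1 = y.2.2.val

/-- the subdivided graph. -/
def Sub (m q : ℕ) : SimpleGraph (Vtx m q) where
  Adj x y := Rel m q x y ∨ Rel m q y x
  symm := ⟨fun _ _ h => h.symm⟩
  loopless := ⟨by
    rintro (i | x) h
    · rcases h with h | h <;> exact h
    · rcases h with h | h <;> simp [Rel] at h⟩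

/-- the vertices reachable from `v` inside `X`. -/
def comp {m q : ℕ} (X : Set (Vtx m q)) (v : Vtx m q) : Set (Vtx m q) :=
  {w | ∃ p : (Sub m q).Walk v w, ∀ x ∈ p.support, x ∈ X}

section sub

variable {m q : ℕ}

theorem comp_subset {X : Set (Vtx m q)} {v : Vtx m q} : comp X v ⊆ X := by
  rintro w ⟨p, hp⟩
  exact hp w p.end_mem_support

theorem comp_closed {X D : Set (Vtx m q)} {v : Vtx m q} (hv : v ∈ D)
    (h : ∀ x ∈ D, ∀ y ∈ X, (Sub m q).Adj x y → y ∈ D) : comp X v ⊆ D := by
  rintro w ⟨p, hp⟩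
  induction p with
  | nil => exact hv
  | @cons a b c hab p ih =>
    apply ih
    · apply h a hv b _ hab
      exact hp b (by simp)
    · intro x hx
      exact hp x (by simp [hx])

theorem mem_comp_self {X : Set (Vtx m q)} {v : Vtx m q} (hv : v ∈ X) : v ∈ comp X v :=
  ⟨Walk.nil, by simpa using hv⟩

theorem comp_mono {X Y : Set (Vtx m q)} (h : X ⊆ Y) (v : Vtx m q) : comp X v ⊆ comp Y v := by
  rintro w ⟨p, hp⟩
  exact ⟨p, fun x hx => h (hp x hx)⟩

theorem comp_eq {X : Set (Vtx m q)} {v w : Vtx m q} (h : w ∈ comp X v) : comp X w = comp X v := by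
  obtain ⟨p, hp⟩ := h
  ext x
  constructor
  · rintro ⟨p', hp'⟩
    refine ⟨p.append p', ?_⟩
    intro y hy
    rw [Walk.mem_support_append_iff] at hy
    rcases hy with hy | hy
    · exact hp y hy
    · exact hp' y hy
  · rintro ⟨p', hp'⟩
    refine ⟨p.reverse.append p', ?_⟩
    intro y hy
    rw [Walk.mem_support_append_iff] at hy
    rcases hy with hy | hy
    · rw [Walk.support_reverse, List.mem_reverse] at hy
      exact hp y hy
    · exact hp' y hy

theorem comp_adj {X : Set (Vtx m q)} {v x y : Vtx m q} (hx : x ∈ comp X v) (hy : y ∈ X)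
    (hxy : (Sub m q).Adj x y) : y ∈ comp X v := by
  rw [← comp_eq hx]
  refine ⟨Walk.cons hxy Walk.nil, ?_⟩
  intro z hz
  simp only [Walk.support_cons, Walk.support_nil, List.mem_cons, List.not_mem_nil, or_false] at hz
  rcases hz with rfl | rfl
  · exact comp_subset hx
  · exact hy

/-- all components are small. -/
def Small (U : Finset (Vtx m q)) (X : Set (Vtx m q)) : Prop :=
  ∀ v ∈ X, 3 * (comp X v).ncard ≤ 2 * U.card

/-- components that avoid a big component are small. -/
theorem small_of_not_mem {U : Finset (Vtx m q)} {X Y : Set (Vtx m q)} (hX : X ⊆ U) (hYX : Y ⊆ X)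
    {v0 v : Vtx m q} (hbig : 2 * U.card < 3 * (comp X v0).ncard) (hv : v ∉ comp X v0)
    (hvY : v ∈ Y) : 3 * (comp Y v).ncard ≤ 2 * U.card := by
  have hdis : Disjoint (comp Y v) (comp X v0) := by
    rw [Set.disjoint_left]
    intro w hw hw'
    apply hv
    rw [← comp_eq hw', comp_eq (comp_mono hYX v hw)]
    exact mem_comp_self (hYX hvY)
  have h1 : (comp Y v ∪ comp X v0).ncard ≤ U.card := by
    rw [← Set.ncard_coe_finset U]
    apply Set.ncard_le_ncard _ (Finset.finite_toSet _)
    intro w hw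
    rcases hw with hw | hw
    · exact hX (hYX (comp_subset hw))
    · exact hX (comp_subset hw)
  rw [Set.ncard_union_eq hdis (Set.toFinite _) (Set.toFinite _)] at h1
  omega

/-- the case of large graphs: remove all branch vertices. -/
theorem comp_branch {X : Set (Vtx m q)} (hX : ∀ i, Sum.inl i ∉ X) {v : Vtx m q} (hv : v ∈ X) :
    (comp X v).ncard ≤ q := by
  rcases v with i | ⟨i, j, s⟩
  · exact absurd hv (hX i)
  · have h1 : comp X (Sum.inr (i, j, s)) ⊆ Set.range (fun t : Fin q => (Sum.inr (i, j, t) : Vtx m q)) := by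
      refine comp_closed (by exact ⟨s, rfl⟩) ?_
      rintro _ ⟨t, rfl⟩ y hy hxy
      rcases y with i' | ⟨i', j', s'⟩
      · exact absurd hy (hX i')
      · rcases hxy with h | h
        · obtain ⟨rfl, h2, _⟩ := h
          simp only at h2
          subst h2
          exact ⟨s', rfl⟩
        · obtain ⟨h1, h2, _⟩ := h
          simp only at h1 h2
          subst h1
          subst h2
          exact ⟨s', rfl⟩
    refine (Set.ncard_le_ncard h1 (Set.toFinite _)).trans ?_
    rw [← Set.image_univ]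
    refine (Set.ncard_image_le (Set.toFinite _)).trans ?_
    rw [Set.ncard_univ]
    simp

/-- the path of the pair `(i, j)` is completely contained in `U`. -/
def Full (U : Finset (Vtx m q)) (i j : Fin m) : Prop :=
  Sum.inl i ∈ U ∧ Sum.inl j ∈ U ∧ ∀ s, Sum.inr (i, j, s) ∈ U

open Classical in
/-- the first ends of the full paths. -/
noncomputable def S0 (U : Finset (Vtx m q)) : Finset (Fin m) :=
  univ.filter (fun i => ∃ j, Full U i j)

theorem card_S0 (U : Finset (Vtx m q)) : (S0 U).card * q ≤ U.card := by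
  classical
  have hex : ∀ i, ∃ j, i ∈ S0 U → Full U i j := by
    intro i
    by_cases hi : i ∈ S0 U
    · obtain ⟨j, hj⟩ := (mem_filter.1 hi).2
      exact ⟨j, fun _ => hj⟩
    · exact ⟨i, fun h => absurd h hi⟩
  choose g hg using hex
  have h1 : (S0 U ×ˢ (univ : Finset (Fin q))).card ≤ U.card := by
    apply card_le_card_of_injOn (fun x => (Sum.inr (x.1, g x.1, x.2) : Vtx m q))
    · intro x hx
      rw [mem_coe, mem_product] at hx
      exact (hg x.1 hx.1).2.2 x.2
    · intro x _ y _ hxy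
      have h2 := Sum.inr.inj hxy
      have h3 := Prod.mk.inj h2
      exact Prod.ext h3.1 (Prod.mk.inj h3.2).2
  rwa [card_product, card_univ, Fintype.card_fin] at h1

/-- the component of a branch vertex contains no other branch vertex. -/
theorem unique_branch {U : Finset (Vtx m q)} {X : Set (Vtx m q)} (hX : X ⊆ U)
    (hXS : ∀ i ∈ S0 U, Sum.inl i ∉ X) {b : Fin m} (hb : Sum.inl b ∈ X) {b' : Fin m}
    (hb' : Sum.inl b' ∈ comp X (Sum.inl b)) : b' = b := by
  classical
  have h1 : comp X (Sum.inl b) ⊆ ({Sum.inl b} : Set (Vtx m q)) ∪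
      ({w | ∃ j s, w = Sum.inr (b, j, s) ∧ ∀ s' ≤ s, Sum.inr (b, j, s') ∈ U} ∪
        {w | ∃ j s, w = Sum.inr (j, b, s) ∧ ∀ s', s ≤ s' → Sum.inr (j, b, s') ∈ U}) := by
    apply comp_closed (Or.inl rfl)
    rintro x (rfl | ⟨j, s, rfl, hs⟩ | ⟨j, s, rfl, hs⟩) y hy hxy
    · rcases y with i' | ⟨i', j', s'⟩
      · rcases hxy with h | h <;> exact absurd h (by simp [Rel])
      · rcases hxy with ⟨h1, h2⟩ | ⟨h1, h2⟩
        · simp only at h1 h2
          subst h1
          right; left
          refine ⟨j', s', rfl, ?_⟩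
          intro s'' hs''
          have : s'' = s' := by
            apply Fin.ext
            have : s''.val ≤ s'.val := hs''
            omega
          rw [this]
          exact hX hy
        · simp only at h1 h2
          subst h1
          right; right
          refine ⟨i', s', rfl, ?_⟩
          intro s'' hs''
          have : s'' = s' := by
            apply Fin.ext
            have h3 : s'.val ≤ s''.val := hs''
            have h4 := s''.2
            omega
          rw [this]
          exact hX hy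
    · rcases y with i' | ⟨i', j', s'⟩
      · rcases hxy with ⟨h1, h2⟩ | ⟨h1, h2⟩
        · simp only at h1 h2
          subst h1
          exfalso
          apply hXS b _ hb
          rw [S0, mem_filter]
          refine ⟨mem_univ _, j, hX hb, hX hy, ?_⟩
          intro s''
          apply hs
          show s''.val ≤ s.val
          have := s''.2
          omega
        · simp only at h1
          left
          rw [h1]
          rfl
      · rcases hxy with ⟨h1, h2, h3⟩ | ⟨h1, h2, h3⟩
        · simp only at h1 h2 h3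
          subst h1; subst h2
          right; left
          refine ⟨j, s', rfl, ?_⟩
          intro s'' hs''
          by_cases h4 : s'' ≤ s
          · exact hs s'' h4
          · have : s'' = s' := by
              apply Fin.ext
              have h5 : s''.val ≤ s'.val := hs''
              have h6 : ¬ s''.val ≤ s.val := h4
              omega
            rw [this]
            exact hX hy
        · simp only at h1 h2 h3
          subst h1; subst h2
          right; left
          refine ⟨j', s', rfl, ?_⟩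
          intro s'' hs''
          apply hs
          have h5 : s''.val ≤ s'.val := hs''
          show s''.val ≤ s.val
          omega
    · rcases y with i' | ⟨i', j', s'⟩
      · rcases hxy with ⟨h1, h2⟩ | ⟨h1, h2⟩
        · simp only at h1
          left
          rw [← h1]
          rfl
        · simp only at h1 h2
          subst h1
          exfalso
          apply hXS i' _ hy
          rw [S0, mem_filter]
          refine ⟨mem_univ _, b, hX hy, hX hb, ?_⟩
          intro s''
          apply hs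
          show s.val ≤ s''.val
          omega
      · rcases hxy with ⟨h1, h2, h3⟩ | ⟨h1, h2, h3⟩
        · simp only at h1 h2 h3
          subst h1; subst h2
          right; right
          refine ⟨j, s', rfl, ?_⟩
          intro s'' hs''
          apply hs
          have h5 : s'.val ≤ s''.val := hs''
          show s.val ≤ s''.val
          omega
        · simp only at h1 h2 h3
          subst h1; subst h2
          right; right
          refine ⟨i', s', rfl, ?_⟩
          intro s'' hs''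
          by_cases h4 : s ≤ s''
          · exact hs s'' h4
          · have : s'' = s' := by
              apply Fin.ext
              have h5 : s'.val ≤ s''.val := hs''
              have h6 : ¬ s.val ≤ s''.val := h4
              omega
            rw [this]
            exact hX hy
  rcases h1 hb' with h | ⟨j, s, h, _⟩ | ⟨j, s, h, _⟩
  · exact Sum.inl.inj h
  · exact absurd h (by simp)
  · exact absurd h (by simp)

/-- a component without branch vertices lies on one path. -/
theorem comp_on_path {X : Set (Vtx m q)} {i j : Fin m} {s : Fin q}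
    (hno : ∀ b, Sum.inl b ∉ comp X (Sum.inr (i, j, s))) (hs : Sum.inr (i, j, s) ∈ X) :
    ∀ w ∈ comp X (Sum.inr (i, j, s)), ∃ t, w = Sum.inr (i, j, t) := by
  have h1 : comp X (Sum.inr (i, j, s)) ⊆
      {w | w ∈ comp X (Sum.inr (i, j, s)) ∧ ∃ t, w = Sum.inr (i, j, t)} := by
    refine comp_closed (by exact ⟨mem_comp_self hs, s, rfl⟩) ?_
    rintro _ ⟨hx, t, rfl⟩ y hy hxy
    have hyc := comp_adj hx hy hxy
    refine ⟨hyc, ?_⟩
    rcases y with i' | ⟨i', j', s'⟩
    · exact absurd hyc (hno i')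
    · rcases hxy with ⟨h1, h2, _⟩ | ⟨h1, h2, _⟩
      · simp only at h1 h2
        subst h1; subst h2
        exact ⟨s', rfl⟩
      · simp only at h1 h2
        subst h1; subst h2
        exact ⟨s', rfl⟩
  exact fun w hw => (h1 hw).2

/-- a median. -/
theorem exists_median (D : Finset ℕ) (hD : D.Nonempty) : ∃ x ∈ D,
    2 * (D.filter (· < x)).card ≤ D.card ∧ 2 * (D.filter (x < ·)).card ≤ D.card := by
  classical
  -- the least `x` in `D` with at least half of the elements at most `x`
  have hex : ∃ x, x ∈ D ∧ D.card ≤ 2 * (D.filter (· ≤ x)).card := by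
    refine ⟨D.max' hD, D.max'_mem hD, ?_⟩
    rw [filter_true_of_mem (fun y hy => D.le_max' y hy)]
    omega
  obtain ⟨hx1, hx2⟩ := Nat.find_spec hex
  obtain ⟨x, hx⟩ : ∃ x, x = Nat.find hex := ⟨_, rfl⟩
  rw [← hx] at hx1 hx2
  refine ⟨x, hx1, ?_, ?_⟩
  · by_contra hcon
    push Not at hcon
    have hne : (D.filter (· < x)).Nonempty := by
      rw [← card_pos]
      omega
    obtain ⟨z, hz⟩ : ∃ z, z = (D.filter (· < x)).max' hne := ⟨_, rfl⟩
    have hzm : z ∈ D.filter (· < x) := hz ▸ max'_mem _ _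
    rw [mem_filter] at hzm
    have hlt : z < Nat.find hex := hx ▸ hzm.2
    apply Nat.find_min hex hlt
    refine ⟨hzm.1, ?_⟩
    have hsub : D.filter (· < x) ⊆ D.filter (· ≤ z) := by
      intro y hy
      rw [mem_filter]
      exact ⟨(mem_filter.1 hy).1, hz ▸ le_max' _ _ hy⟩
    have := card_le_card hsub
    omega
  · have h1 : (D.filter (· ≤ x)).card + (D.filter (x < ·)).card = D.card := by
      rw [← card_filter_add_card_filter_not (s := D) (p := (· ≤ x))]
      congr 2
      ext y
      simp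
    omega

/-- the case of small graphs. -/
theorem exists_sep (U : Finset (Vtx m q)) : ∃ S : Finset (Vtx m q), S.card ≤ (S0 U).card + 2 ∧
    Small U ((U : Set (Vtx m q)) \ S) := by
  classical
  obtain ⟨T0, hT0⟩ : ∃ T0 : Finset (Vtx m q), T0 = (S0 U).image Sum.inl := ⟨_, rfl⟩
  have hT0c : T0.card ≤ (S0 U).card := by rw [hT0]; exact card_image_le
  obtain ⟨X0, hX0⟩ : ∃ X0 : Set (Vtx m q), X0 = (U : Set (Vtx m q)) \ T0 := ⟨_, rfl⟩
  by_cases hs0 : Small U X0
  · exact ⟨T0, by omega, hX0 ▸ hs0⟩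
  have hs0' : ∃ v0 ∈ X0, 2 * U.card < 3 * (comp X0 v0).ncard := by
    by_contra hcon
    push Not at hcon
    exact hs0 hcon
  obtain ⟨v0, hv0, hbig0⟩ := hs0'
  have hX0U : X0 ⊆ U := hX0 ▸ Set.sdiff_subset
  have hX0S : ∀ i ∈ S0 U, (Sum.inl i : Vtx m q) ∉ X0 := by
    intro i hi h
    rw [hX0] at h
    apply h.2
    rw [hT0, mem_coe, mem_image]
    exact ⟨i, hi, rfl⟩
  -- the next set
  obtain ⟨T1, hT1c, hT1⟩ : ∃ T1 : Finset (Vtx m q), T1.card ≤ (S0 U).card + 1 ∧
      ((U : Set (Vtx m q)) \ T1 ⊆ X0 ∧ ∀ v ∈ (U : Set (Vtx m q)) \ T1, v ∈ comp X0 v0 →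
        ∀ b, (Sum.inl b : Vtx m q) ∉ comp ((U : Set (Vtx m q)) \ T1) v) := by
    by_cases hb : ∃ b, (Sum.inl b : Vtx m q) ∈ comp X0 v0
    · obtain ⟨b, hb⟩ := hb
      refine ⟨insert (Sum.inl b) T0, (card_insert_le _ _).trans (by omega), ?_, ?_⟩
      · rw [hX0]
        apply Set.sdiff_subset_sdiff_right
        rw [coe_insert]
        exact Set.subset_insert _ _
      · intro v hv hvc b' hb'
        have hsub : (U : Set (Vtx m q)) \ (insert (Sum.inl b) T0 : Finset (Vtx m q)) ⊆ X0 := by
          rw [hX0]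
          apply Set.sdiff_subset_sdiff_right
          rw [coe_insert]
          exact Set.subset_insert _ _
        have h1 : (Sum.inl b' : Vtx m q) ∈ comp X0 v0 := by
          rw [← comp_eq hvc]
          exact comp_mono hsub v hb'
        rw [← comp_eq hb] at h1
        have h2 := unique_branch hX0U hX0S (comp_subset hb) h1
        have h3 := comp_subset hb'
        apply h3.2
        rw [h2, coe_insert]
        exact Or.inl rfl
    · push Not at hb
      refine ⟨T0, by omega, hX0 ▸ le_rfl, ?_⟩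
      intro v hv hvc b' hb'
      apply hb b'
      rw [← comp_eq hvc, hX0]
      exact hb'
  obtain ⟨hX1, hno⟩ := hT1
  obtain ⟨X1, hX1d⟩ : ∃ X1 : Set (Vtx m q), X1 = (U : Set (Vtx m q)) \ T1 := ⟨_, rfl⟩
  rw [← hX1d] at hX1 hno
  by_cases hs1 : Small U X1
  · exact ⟨T1, by omega, hX1d ▸ hs1⟩
  have hs1' : ∃ v1 ∈ X1, 2 * U.card < 3 * (comp X1 v1).ncard := by
    by_contra hcon
    push Not at hcon
    exact hs1 hcon
  obtain ⟨v1, hv1, hbig1⟩ := hs1'
  have hv1c : v1 ∈ comp X0 v0 := by
    by_contra hcon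
    have := small_of_not_mem hX0U hX1 hbig0 hcon hv1
    omega
  have hno1 := hno v1 hv1 hv1c
  rcases v1 with b | ⟨i, j, s⟩
  · exact absurd (mem_comp_self hv1) (hno1 b)
  have hpath := comp_on_path hno1 hv1
  -- positions on the path
  obtain ⟨D, hD⟩ : ∃ D : Finset ℕ, D = (univ.filter (fun t : Fin q =>
    (Sum.inr (i, j, t) : Vtx m q) ∈ comp X1 (Sum.inr (i, j, s)))).image (fun t => t.val) := ⟨_, rfl⟩
  have hDmem : ∀ t : Fin q, t.val ∈ D ↔ (Sum.inr (i, j, t) : Vtx m q) ∈
      comp X1 (Sum.inr (i, j, s)) := by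
    intro t
    rw [hD, mem_image]
    constructor
    · rintro ⟨t', ht', h⟩
      rw [← Fin.ext h]
      exact (mem_filter.1 ht').2
    · intro h
      exact ⟨t, mem_filter.2 ⟨mem_univ _, h⟩, rfl⟩
  have hDlt : ∀ x ∈ D, x < q := by
    intro x hx
    rw [hD, mem_image] at hx
    obtain ⟨t, _, rfl⟩ := hx
    exact t.2
  have hDne : D.Nonempty := ⟨s.val, (hDmem s).2 (mem_comp_self hv1)⟩
  obtain ⟨x, hxD, hx1, hx2⟩ := exists_median D hDne
  -- subsets of the component on one side of the median are small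
  have hside : ∀ (P : ℕ → Prop) [DecidablePred P] (F : Set (Vtx m q)),
      (∀ w ∈ F, ∃ t : Fin q, w = Sum.inr (i, j, t) ∧ t.val ∈ D ∧ P t.val) →
      2 * (D.filter P).card ≤ D.card → 3 * F.ncard ≤ 2 * U.card := by
    intro P _ F hF hle
    have h1 : F.ncard ≤ (D.filter P).card := by
      have h2 : F ⊆ ((univ.filter (fun t : Fin q => t.val ∈ D ∧ P t.val)).image
          (fun t => (Sum.inr (i, j, t) : Vtx m q)) : Finset (Vtx m q)) := by
        intro w hw
        obtain ⟨t, rfl, h3, h4⟩ := hF w hw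
        rw [mem_coe, mem_image]
        exact ⟨t, mem_filter.2 ⟨mem_univ _, h3, h4⟩, rfl⟩
      refine (Set.ncard_le_ncard h2 (Finset.finite_toSet _)).trans ?_
      rw [Set.ncard_coe_finset]
      refine card_image_le.trans ?_
      apply card_le_card_of_injOn (fun t => t.val)
      · intro t ht
        rw [mem_coe, mem_filter] at ht
        rw [mem_coe, mem_filter]
        exact ht.2
      · intro t _ t' _ h
        exact Fin.ext h
    have h2 : D.card ≤ U.card := by
      apply card_le_card_of_injOn (fun y => if h : y < q then (Sum.inr (i, j, ⟨y, h⟩) : Vtx m q)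
        else Sum.inl i)
      · intro y hy
        rw [mem_coe] at hy
        have hyq := hDlt y hy
        show (if h : y < q then (Sum.inr (i, j, ⟨y, h⟩) : Vtx m q) else Sum.inl i) ∈ (U : Set (Vtx m q))
        rw [dif_pos hyq]
        have h3 : (Sum.inr (i, j, ⟨y, hyq⟩) : Vtx m q) ∈ comp X1 (Sum.inr (i, j, s)) :=
          (hDmem ⟨y, hyq⟩).1 hy
        exact hX0U (hX1 (comp_subset h3))
      · intro y hy y' hy' h
        rw [mem_coe] at hy hy'
        have hyq := hDlt y hy
        have hyq' := hDlt y' hy'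
        simp only [dif_pos hyq, dif_pos hyq'] at h
        have h3 := Prod.mk.inj (Prod.mk.inj (Sum.inr.inj h)).2
        exact congrArg Fin.val h3.2
    omega
  obtain ⟨T2, hT2⟩ : ∃ T2 : Finset (Vtx m q), T2 = insert (Sum.inr (i, j, ⟨x, hDlt x hxD⟩)) T1 :=
    ⟨_, rfl⟩
  have hX2X1 : (U : Set (Vtx m q)) \ T2 ⊆ X1 := by
    rw [hX1d, hT2]
    apply Set.sdiff_subset_sdiff_right
    rw [coe_insert]
    exact Set.subset_insert _ _
  have hxX2 : (Sum.inr (i, j, ⟨x, hDlt x hxD⟩) : Vtx m q) ∉ (U : Set (Vtx m q)) \ T2 := by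
    intro h
    apply h.2
    rw [hT2, coe_insert]
    exact Or.inl rfl
  refine ⟨T2, ?_, ?_⟩
  · rw [hT2]
    exact (card_insert_le _ _).trans (by omega)
  · intro v hv
    by_cases hvc : v ∈ comp X1 (Sum.inr (i, j, s))
    · obtain ⟨t, rfl⟩ := hpath v hvc
      have htx : t.val ≠ x := by
        rintro rfl
        exact hxX2 hv
      -- a closedness property common to both sides
      have hstep : ∀ (t : Fin q) (y : Vtx m q), t.val ∈ D → y ∈ (U : Set (Vtx m q)) \ T2 →
          (Sub m q).Adj (Sum.inr (i, j, t)) y → ∃ t' : Fin q, y = Sum.inr (i, j, t') ∧ t'.val ∈ D ∧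
            t'.val ≠ x ∧ (t.val + 1 = t'.val ∨ t'.val + 1 = t.val) := by
        intro t y ht hy hty
        have h1 := comp_adj ((hDmem t).1 ht) (hX2X1 hy) hty
        obtain ⟨t', rfl⟩ := hpath y h1
        refine ⟨t', rfl, (hDmem t').2 h1, ?_, ?_⟩
        · rintro rfl
          exact hxX2 hy
        · rcases hty with h | h
          · exact Or.inl h.2.2
          · exact Or.inr h.2.2
      rcases lt_or_gt_of_ne htx with hlt | hgt
      · apply hside (fun y => y < x) _ _ hx1
        have h1 : comp ((U : Set (Vtx m q)) \ T2) (Sum.inr (i, j, t)) ⊆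
            {w | ∃ t' : Fin q, w = Sum.inr (i, j, t') ∧ t'.val ∈ D ∧ t'.val < x} := by
          refine comp_closed (by exact ⟨t, rfl, (hDmem t).2 hvc, hlt⟩) ?_
          rintro _ ⟨t', rfl, h2, h3⟩ y hy hxy
          obtain ⟨t'', h4, h5, h6, h7⟩ := hstep t' y h2 hy hxy
          exact ⟨t'', h4, h5, by omega⟩
        exact fun w hw => h1 hw
      · apply hside (fun y => x < y) _ _ hx2
        have h1 : comp ((U : Set (Vtx m q)) \ T2) (Sum.inr (i, j, t)) ⊆
            {w | ∃ t' : Fin q, w = Sum.inr (i, j, t') ∧ t'.val ∈ D ∧ x < t'.val} := by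
          refine comp_closed (by exact ⟨t, rfl, (hDmem t).2 hvc, hgt⟩) ?_
          rintro _ ⟨t', rfl, h2, h3⟩ y hy hxy
          obtain ⟨t'', h4, h5, h6, h7⟩ := hstep t' y h2 hy hxy
          exact ⟨t'', h4, h5, by omega⟩
        exact fun w hw => h1 hw
    · exact small_of_not_mem (hX1.trans hX0U) hX2X1 hbig1 hvc hv

end sub

/-- the class of the subgraphs of the graphs `Sub (q ^ (k - 1)) q`. -/
def Cls (k : ℕ) (G : FG) : Prop :=
  ∃ q : ℕ, 1 ≤ q ∧ ∃ f : G.V → Vtx (q ^ (k - 1)) q, Function.Injective f ∧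
    ∀ a b, G.G.Adj a b → (Sub (q ^ (k - 1)) q).Adj (f a) (f b)

theorem monotone_Cls (k : ℕ) : Monotone (Cls k) := by
  rintro G H ⟨q, hq, f, hf1, hf2⟩ ⟨g, hg1, hg2⟩
  exact ⟨q, hq, f ∘ g, hf1.comp hg1, fun a b h => hf2 _ _ (hg2 a b h)⟩

/-- pulling back a separator. -/
theorem pull_sep {m q : ℕ} {V : Type} [Fintype V] {G : SimpleGraph V} (f : V → Vtx m q)
    (hf1 : Function.Injective f) (hf2 : ∀ a b, G.Adj a b → (Sub m q).Adj (f a) (f b))
    (U : Finset (Vtx m q)) (hU : (U : Set (Vtx m q)) = Set.range f) (S : Finset (Vtx m q))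
    (hS : Small U ((U : Set (Vtx m q)) \ S)) :
    BalSep G (f ⁻¹' S) ∧ (f ⁻¹' S : Set V).ncard ≤ S.card ∧ U.card = Nat.card V := by
  classical
  have hUc : U.card = Nat.card V := by
    rw [← Set.ncard_coe_finset, hU, ← Set.image_univ, Set.ncard_image_of_injective _ hf1,
      Set.ncard_univ]
  refine ⟨?_, ?_, hUc⟩
  · intro v hv
    have hvU : f v ∈ (U : Set (Vtx m q)) \ S := ⟨hU ▸ ⟨v, rfl⟩, hv⟩
    have h1 := hS (f v) hvU
    rw [hUc] at h1
    refine le_trans (Nat.mul_le_mul_left 3 ?_) h1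
    rw [← Set.ncard_image_of_injective _ hf1]
    apply Set.ncard_le_ncard _ (Set.toFinite _)
    rintro _ ⟨w, ⟨p, hp⟩, rfl⟩
    let F : G →g Sub m q := ⟨f, fun {a b} h => hf2 a b h⟩
    refine ⟨p.map F, ?_⟩
    intro x hx
    rw [Walk.support_map, List.mem_map] at hx
    obtain ⟨y, hy, rfl⟩ := hx
    exact ⟨hU ▸ ⟨y, rfl⟩, hp y hy⟩
  · rw [← Set.ncard_image_of_injective _ hf1, ← Set.ncard_coe_finset S]
    apply Set.ncard_le_ncard _ (Finset.finite_toSet _)
    exact Set.image_preimage_subset f _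

theorem separators_Cls (k : ℕ) (hk : 2 ≤ k) : HasSeparators (Cls k) (1 / (k : ℝ)) := by
  classical
  refine ⟨3, ?_⟩
  rintro G ⟨q, hq, f, hf1, hf2⟩
  have := G.fin
  have := Fintype.ofFinite G.V
  obtain ⟨n, hn⟩ : ∃ n, n = Nat.card G.V := ⟨_, rfl⟩
  rw [← hn]
  have hk0 : (0 : ℝ) < k := by
    have : 0 < k := by omega
    exact_mod_cast this
  have hexp : (0 : ℝ) < 1 - 1 / (k : ℝ) := by
    have : (2 : ℝ) ≤ k := by exact_mod_cast hk
    rw [sub_pos, div_lt_one hk0]
    linarith
  obtain ⟨U, hU⟩ : ∃ U : Finset (Vtx (q ^ (k - 1)) q), (U : Set _) = Set.range f :=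
    ⟨(Set.range f).toFinset, by simp⟩
  rcases Nat.eq_zero_or_pos n with hn0 | hn1
  · refine ⟨∅, ?_, ?_⟩
    · intro v _
      exfalso
      have h0 : Nat.card G.V = 0 := by omega
      rw [Finite.card_eq_zero_iff] at h0
      exact h0.elim v
    · rw [Set.ncard_empty]
      simp only [Nat.cast_zero]
      positivity
  have hn1' : (1 : ℝ) ≤ n := by exact_mod_cast hn1
  have hpow1 : (1 : ℝ) ≤ (n : ℝ) ^ (1 - 1 / (k : ℝ)) := Real.one_le_rpow hn1' hexp.le
  rcases le_or_gt (q ^ k) n with hbig | hsmall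
  · -- large graphs
    by_cases h32 : 3 * q ≤ 2 * n
    · obtain ⟨S, hS⟩ : ∃ S : Finset (Vtx (q ^ (k - 1)) q), S = univ.image Sum.inl := ⟨_, rfl⟩
      have hSm : Small U ((U : Set _) \ S) := by
        intro v hv
        have hUc : U.card = n := by
          rw [← Set.ncard_coe_finset, hU, ← Set.image_univ, Set.ncard_image_of_injective _ hf1,
            Set.ncard_univ, hn]
        have h0 : ∀ i, (Sum.inl i : Vtx (q ^ (k - 1)) q) ∉
            (U : Set (Vtx (q ^ (k - 1)) q)) \ S := by
          intro i hi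
          apply hi.2
          rw [hS, mem_coe, mem_image]
          exact ⟨i, mem_univ _, rfl⟩
        have h1 := comp_branch h0 hv
        rw [hUc]
        omega
      obtain ⟨h1, h2, -⟩ := pull_sep f hf1 hf2 U hU S hSm
      refine ⟨_, h1, ?_⟩
      have h3 : S.card ≤ q ^ (k - 1) := by
        rw [hS]
        refine card_image_le.trans ?_
        rw [card_univ, Fintype.card_fin]
      have h4 : ((q ^ (k - 1) : ℕ) : ℝ) ≤ (n : ℝ) ^ (1 - 1 / (k : ℝ)) := by
        have h5 : ((q ^ (k - 1) : ℕ) : ℝ) = ((q : ℝ) ^ k) ^ (1 - 1 / (k : ℝ)) := by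
          rw [← Real.rpow_natCast (q : ℝ) k, ← Real.rpow_mul (Nat.cast_nonneg q)]
          have : (k : ℝ) * (1 - 1 / (k : ℝ)) = ((k - 1 : ℕ) : ℝ) := by
            rw [Nat.cast_sub (by omega)]
            field_simp
            push_cast
            ring
          rw [this, Real.rpow_natCast]
          push_cast
          ring
        rw [h5]
        apply Real.rpow_le_rpow (by positivity) _ hexp.le
        exact_mod_cast hbig
      have h5 : ((f ⁻¹' (S : Set _) : Set G.V).ncard : ℝ) ≤ ((q ^ (k - 1) : ℕ) : ℝ) := by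
        exact_mod_cast h2.trans h3
      linarith
    · -- a single vertex
      have hq2 : q * q ≤ q ^ k := by
        rw [← sq]
        exact Nat.pow_le_pow_right hq hk
      have hn' : n = 1 := by
        have : q * q ≤ n := hq2.trans hbig
        nlinarith
      refine ⟨Set.univ, fun v hv => absurd (Set.mem_univ v) hv, ?_⟩
      rw [Set.ncard_univ, ← hn, hn']
      simp
  · -- small graphs
    obtain ⟨S, hS1, hS2⟩ := exists_sep U
    obtain ⟨h1, h2, h3⟩ := pull_sep f hf1 hf2 U hU S hS2
    refine ⟨_, h1, ?_⟩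
    have h4 := card_S0 U
    rw [h3, ← hn] at h4
    have hq0 : (0 : ℝ) < q := by exact_mod_cast hq
    have h5 : ((S0 U).card : ℝ) * q ≤ n := by exact_mod_cast h4
    have h6 : (n : ℝ) ≤ q * (n : ℝ) ^ (1 - 1 / (k : ℝ)) := by
      have h7 : (n : ℝ) ^ (1 / (k : ℝ)) ≤ q := by
        have h8 : (n : ℝ) ≤ (q : ℝ) ^ (k : ℝ) := by
          rw [Real.rpow_natCast]
          exact_mod_cast hsmall.le
        calc (n : ℝ) ^ (1 / (k : ℝ)) ≤ ((q : ℝ) ^ (k : ℝ)) ^ (1 / (k : ℝ)) :=
              Real.rpow_le_rpow (by positivity) h8 (by positivity)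
          _ = q := by
              rw [← Real.rpow_mul hq0.le, mul_one_div_cancel hk0.ne', Real.rpow_one]
      calc (n : ℝ) = (n : ℝ) ^ (1 / (k : ℝ)) * (n : ℝ) ^ (1 - 1 / (k : ℝ)) := by
            rw [← Real.rpow_add (by linarith)]
            have : 1 / (k : ℝ) + (1 - 1 / (k : ℝ)) = 1 := by ring
            rw [this, Real.rpow_one]
        _ ≤ _ := mul_le_mul_of_nonneg_right h7 (by positivity)
    have h7 : ((S0 U).card : ℝ) ≤ (n : ℝ) ^ (1 - 1 / (k : ℝ)) := by
      have h8 : ((S0 U).card : ℝ) * q ≤ (n : ℝ) ^ (1 - 1 / (k : ℝ)) * q := by linarith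
      exact le_of_mul_le_mul_right h8 hq0
    have h8 : ((f ⁻¹' (S : Set _) : Set G.V).ncard : ℝ) ≤ (S0 U).card + 2 := by
      exact_mod_cast h2.trans hS1
    linarith

/-- a walk from a branch vertex along a path. -/
theorem walk_path {m q : ℕ} (i j : Fin m) : ∀ (s : ℕ) (hs : s < q),
    ∃ p : (Sub m q).Walk (Sum.inl i) (Sum.inr (i, j, ⟨s, hs⟩)), p.length ≤ s + 1 ∧
      ∀ w ∈ p.support, w = Sum.inl i ∨ ∃ j' t, w = Sum.inr (i, j', t) := by
  intro s
  induction s with
  | zero =>
    intro hs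
    have hadj : (Sub m q).Adj (Sum.inl i) (Sum.inr (i, j, ⟨0, hs⟩)) := Or.inl ⟨rfl, rfl⟩
    refine ⟨Walk.cons hadj Walk.nil, by simp, ?_⟩
    intro w hw
    simp only [Walk.support_cons, Walk.support_nil, List.mem_cons, List.not_mem_nil, or_false] at hw
    rcases hw with rfl | rfl
    · exact Or.inl rfl
    · exact Or.inr ⟨_, _, rfl⟩
  | succ s ih =>
    intro hs
    obtain ⟨p, hp1, hp2⟩ := ih (by omega)
    have hadj : (Sub m q).Adj (Sum.inr (i, j, ⟨s, by omega⟩)) (Sum.inr (i, j, ⟨s + 1, hs⟩)) :=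
      Or.inl ⟨rfl, rfl, rfl⟩
    refine ⟨p.concat hadj, ?_, ?_⟩
    · rw [Walk.length_concat]
      omega
    · intro w hw
      rw [Walk.support_concat, List.mem_append] at hw
      rcases hw with hw | hw
      · exact hp2 w hw
      · simp only [List.mem_cons, List.not_mem_nil, or_false] at hw
        exact Or.inr ⟨_, _, hw⟩

theorem depthMinor_Sub {m q : ℕ} (hq : 1 ≤ q) : IsDepthMinor q (⊤ : SimpleGraph (Fin m)) (Sub m q) := by
  refine ⟨fun i => {w | w = Sum.inl i ∨ ∃ j t, w = Sum.inr (i, j, t)}, ?_, ?_, ?_⟩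
  · intro i j hij
    rw [Set.disjoint_left]
    rintro w (rfl | ⟨j', t, rfl⟩) (h | ⟨j'', t', h⟩)
    · exact hij (Sum.inl.inj h)
    · exact absurd h (by simp)
    · exact absurd h (by simp)
    · exact hij (Prod.mk.inj (Sum.inr.inj h)).1
  · intro i
    refine ⟨Sum.inl i, Or.inl rfl, ?_⟩
    rintro y (rfl | ⟨j, t, rfl⟩)
    · refine ⟨Walk.nil, by simp, ?_⟩
      intro w hw
      simp only [Walk.support_nil, List.mem_cons, List.not_mem_nil, or_false] at hw
      exact Or.inl hw
    · obtain ⟨p, hp1, hp2⟩ := walk_path i j t.1 t.2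
      exact ⟨p, hp1.trans t.2, hp2⟩
  · intro i j _
    refine ⟨Sum.inr (i, j, ⟨q - 1, by omega⟩), Or.inr ⟨_, _, rfl⟩, Sum.inl j, Or.inl rfl,
      Or.inl ⟨rfl, ?_⟩⟩
    show q - 1 + 1 = q
    omega

/-- Every element `c` of the set `A` is at least `1`. -/
theorem result : ∀ c ∈ A, 1 ≤ c := by
  classical
  rintro c ⟨hc0, hc⟩
  by_contra hlt
  push Not at hlt
  -- choose `k` with `c * k < k - 1`
  obtain ⟨k0, hk0⟩ := exists_nat_gt (1 / (1 - c))
  obtain ⟨k, hk⟩ : ∃ k, k = k0 + 2 := ⟨_, rfl⟩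
  have hkk : c * k < k - 1 := by
    have h1 : 0 < 1 - c := by linarith
    rw [div_lt_iff₀ h1] at hk0
    rw [hk]
    push_cast
    nlinarith
  have hk2 : 2 ≤ k := by omega
  have hkpos : (0 : ℝ) < k := by
    have : 0 < k := by omega
    exact_mod_cast this
  have hk1 : (1 : ℝ) / k ≤ 1 := by
    rw [div_le_one hkpos]
    exact_mod_cast (by omega : 1 ≤ k)
  obtain ⟨f, hf1, hf2⟩ := hc (1 / (k : ℝ)) (by positivity) hk1 (Cls k) (monotone_Cls k)
    (separators_Cls k hk2)
  have hexp : c / (1 / (k : ℝ)) = c * k := by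
    field_simp
  rw [hexp] at hf2
  -- the expansion at depth `q`
  have hlow : ∀ q : ℕ, 1 ≤ q → (q : ℝ) ^ (k - 1) - 1 ≤ f q := by
    intro q hq
    obtain ⟨m, hm⟩ : ∃ m, m = q ^ (k - 1) := ⟨_, rfl⟩
    have hm1 : 1 ≤ m := by rw [hm]; exact Nat.one_le_pow _ _ hq
    have h1 := hf1 q ⟨Vtx m q, inferInstance, Sub m q⟩ ⟨Fin m, inferInstance, ⊤⟩
      ⟨q, hq, by rw [hm]; exact ⟨id, Function.injective_id, fun _ _ h => h⟩⟩ (depthMinor_Sub hq)
    simp only at h1
    have h2 : 2 * ((⊤ : SimpleGraph (Fin m)).edgeSet.ncard : ℝ) = m * (m - 1) := by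
      have h3 : (⊤ : SimpleGraph (Fin m)).edgeSet.ncard = m.choose 2 := by
        have h4 : (⊤ : SimpleGraph (Fin m)).edgeSet.ncard =
            (⊤ : SimpleGraph (Fin m)).edgeFinset.card := by
          rw [Set.ncard_eq_toFinset_card', SimpleGraph.edgeFinset]
        rw [h4, card_edgeFinset_top_eq_card_choose_two, Fintype.card_fin]
      rw [h3, Nat.cast_choose_two]
      ring
    rw [h2, Nat.card_eq_fintype_card, Fintype.card_fin] at h1
    have hm0 : (0 : ℝ) < m := by exact_mod_cast hm1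
    have h3 : (m : ℝ) - 1 ≤ f q := by
      have : (m : ℝ) * (m - 1) ≤ m * f q := by linarith
      exact le_of_mul_le_mul_left this hm0
    rw [hm] at h3
    push_cast at h3
    exact h3
  -- contradiction with the growth rate
  rw [isBigO_iff] at hf2
  obtain ⟨K, hK⟩ := hf2
  have hpos : (0 : ℝ) < ((k : ℝ) - 1) - c * k := by linarith
  have htend : Tendsto (fun q : ℕ => (q : ℝ) ^ (((k : ℝ) - 1) - c * k)) atTop atTop :=
    (tendsto_rpow_atTop hpos).comp tendsto_natCast_atTop_atTop
  have hev := (hK.and (eventually_ge_atTop 2)).and (htend.eventually_gt_atTop (2 * K))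
  obtain ⟨q, ⟨hq1, hq2⟩, hq3⟩ := hev.exists
  have hq0 : (0 : ℝ) < q := by
    have : 0 < q := by omega
    exact_mod_cast this
  have h1 := hlow q (by omega)
  have h2 : f q ≤ K * (q : ℝ) ^ (c * k) := by
    refine (le_abs_self _).trans ?_
    have h3 : |(q : ℝ) ^ (c * k)| = (q : ℝ) ^ (c * k) := abs_of_nonneg (by positivity)
    rw [Real.norm_eq_abs, Real.norm_eq_abs, h3] at hq1
    exact hq1
  have h3 : (2 : ℝ) ≤ (q : ℝ) ^ (k - 1) := by
    have h4 : 2 ^ 1 ≤ q ^ (k - 1) :=
      (Nat.pow_le_pow_left hq2 1).trans (Nat.pow_le_pow_right (by omega) (by omega))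
    have h5 : 2 ≤ q ^ (k - 1) := by simpa using h4
    exact_mod_cast h5
  have h4 : (q : ℝ) ^ (k - 1) ≤ 2 * K * (q : ℝ) ^ (c * k) := by linarith
  have h5 : (q : ℝ) ^ (k - 1) = (q : ℝ) ^ (((k : ℝ) - 1) - c * k) * (q : ℝ) ^ (c * k) := by
    rw [← Real.rpow_add hq0]
    have : ((k : ℝ) - 1) - c * k + c * k = ((k - 1 : ℕ) : ℝ) := by
      rw [Nat.cast_sub (by omega)]
      push_cast
      ring
    rw [this, Real.rpow_natCast]
  rw [h5] at h4
  have h6 : (0 : ℝ) < (q : ℝ) ^ (c * k) := by positivity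
  have h7 := le_of_mul_le_mul_right h4 h6
  linarith

end Pool.Agent.Results.MP_2f3b43_co.ExponentAtLeastOne
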